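import Pool.Agent.helper74.XP.SpecP
import Pool.Agent.helper74.MP.MD
import Pool.Agent.helper87.PP.MD
import Pool.Agent.helper69.PP.MI

/-!
# xp: module ENQ (energy inequality for finite principal parts)
-/

set_option autoImplicit false

open Complex Metric Set Filter Topology MeasureTheory MPS PPS

noncomputable section

namespace XPP

section
variable {ι : Type} [Fintype ι]

/-- principal parts, indexed. -/
def ENQ_q (b α β : ι → ℂ) (z : ℂ) : ℂ := ∑ i, (α i / (z - b i) ^ 2 + β i / (z - b i))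

theorem ENQ_meas (b α β : ι → ℂ) : Measurable (ENQ_q b α β) := by
  unfold ENQ_q
  refine Finset.measurable_sum _ fun i _ => ?_
  exact (((measurable_id.sub_const _).pow_const 2).const_div _).add
    ((measurable_id.sub_const _).const_div _)

/-- the integral of `|q|` over a small annulus around a pole, from above and from below. -/
theorem ENQ_annB (hMI : MPS.MI_stmt) {q : ℂ → ℂ} {C s t v : ℝ} {a : ℂ} (hBm : Measurable q)
    (hC : 0 ≤ C) (hv : 0 ≤ v) (hs : 0 < s) (hst : s ≤ t)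
    (P1 : ∀ z : ℂ, z ≠ a → ‖z - a‖ < t → |‖q z‖ - v / ‖z - a‖ ^ 2| ≤ C / ‖z - a‖) :
    (∫⁻ z in ball a t \ ball a s, ENNReal.ofReal ‖q z‖ ≤
      ENNReal.ofReal (2 * Real.pi * (v * Real.log (t / s))) + ENNReal.ofReal (2 * Real.pi * C * t)) ∧
    (ENNReal.ofReal (2 * Real.pi * (v * Real.log (t / s))) ≤
      (∫⁻ z in ball a t \ ball a s, ENNReal.ofReal ‖q z‖) +
        ENNReal.ofReal (2 * Real.pi * C * t)) := by
  have hA := MD_ann_meas a s t
  have ht : 0 < t := hs.trans_le hst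
  have hmem : ∀ z ∈ ball a t \ ball a s, s ≤ ‖z - a‖ ∧ ‖z - a‖ < t := by
    intro z hz
    rw [Set.mem_sdiff, mem_ball, mem_ball, dist_eq_norm, not_lt] at hz
    exact ⟨hz.2, hz.1⟩
  have hP : ∀ z ∈ ball a t \ ball a s,
      |‖q z‖ - v * (1 / ‖z - a‖ ^ 2)| ≤ C * (1 / ‖z - a‖) := by
    intro z hz
    obtain ⟨h1, h2⟩ := hmem z hz
    have hne : z ≠ a := by
      intro h
      rw [h, sub_self, norm_zero] at h1
      linarith
    have := P1 z hne h2
    rwa [div_eq_mul_one_div C, div_eq_mul_one_div v] at this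
  have hm1 : Measurable fun z : ℂ => ENNReal.ofReal (1 / ‖z - a‖ ^ 2) := by fun_prop
  have hm1' : Measurable fun z : ℂ => ENNReal.ofReal (v * (1 / ‖z - a‖ ^ 2)) := by fun_prop
  have hm2 : Measurable fun z : ℂ => ENNReal.ofReal ‖q z‖ := hBm.norm.ennreal_ofReal
  have hm3 : Measurable fun z : ℂ => ENNReal.ofReal (C * (1 / ‖z - a‖)) := by fun_prop
  obtain ⟨hi1, hi2⟩ := hMI.2 a t ht.le
  have hann : ∫⁻ z in ball a t \ ball a s, ENNReal.ofReal (v * (1 / ‖z - a‖ ^ 2)) =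
      ENNReal.ofReal (2 * Real.pi * (v * Real.log (t / s))) := by
    have h1 : ∀ z : ℂ, ENNReal.ofReal (v * (1 / ‖z - a‖ ^ 2)) =
        ENNReal.ofReal v * ENNReal.ofReal (1 / ‖z - a‖ ^ 2) := fun z => ENNReal.ofReal_mul hv
    simp_rw [h1]
    rw [lintegral_const_mul _ hm1, MD_ann a hs hst, ← ENNReal.ofReal_mul hv]
    congr 1
    ring
  have hCt : ∫⁻ z in ball a t \ ball a s, ENNReal.ofReal (C * (1 / ‖z - a‖)) ≤
      ENNReal.ofReal (2 * Real.pi * C * t) := by
    calc ∫⁻ z in ball a t \ ball a s, ENNReal.ofReal (C * (1 / ‖z - a‖))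
        ≤ ∫⁻ z in ball a t, ENNReal.ofReal (C * (1 / ‖z - a‖)) :=
          lintegral_mono_set sdiff_subset
      _ = ENNReal.ofReal (∫ z in ball a t, C * (1 / ‖z - a‖)) :=
          (ofReal_integral_eq_lintegral_ofReal (hi1.const_mul C)
            (Eventually.of_forall fun z => by positivity)).symm
      _ = ENNReal.ofReal (2 * Real.pi * C * t) := by
          rw [integral_const_mul, hi2]
          congr 1
          ring
  constructor
  · calc ∫⁻ z in ball a t \ ball a s, ENNReal.ofReal ‖q z‖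
        ≤ ∫⁻ z in ball a t \ ball a s, (ENNReal.ofReal (v * (1 / ‖z - a‖ ^ 2)) +
            ENNReal.ofReal (C * (1 / ‖z - a‖))) := by
          refine setLIntegral_mono' hA fun z hz => ?_
          rw [← ENNReal.ofReal_add (by positivity) (by positivity)]
          apply ENNReal.ofReal_le_ofReal
          have := (abs_le.mp (hP z hz)).2
          linarith
      _ = (∫⁻ z in ball a t \ ball a s, ENNReal.ofReal (v * (1 / ‖z - a‖ ^ 2))) +
            ∫⁻ z in ball a t \ ball a s, ENNReal.ofReal (C * (1 / ‖z - a‖)) :=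
          lintegral_add_left hm1' _
      _ ≤ _ := by
          rw [hann]
          gcongr
  · calc ENNReal.ofReal (2 * Real.pi * (v * Real.log (t / s)))
        = ∫⁻ z in ball a t \ ball a s, ENNReal.ofReal (v * (1 / ‖z - a‖ ^ 2)) := hann.symm
      _ ≤ ∫⁻ z in ball a t \ ball a s, (ENNReal.ofReal ‖q z‖ +
            ENNReal.ofReal (C * (1 / ‖z - a‖))) := by
          refine setLIntegral_mono' hA fun z hz => ?_
          rw [← ENNReal.ofReal_add (by positivity) (by positivity)]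
          apply ENNReal.ofReal_le_ofReal
          have := (abs_le.mp (hP z hz)).1
          linarith
      _ = (∫⁻ z in ball a t \ ball a s, ENNReal.ofReal ‖q z‖) +
            ∫⁻ z in ball a t \ ball a s, ENNReal.ofReal (C * (1 / ‖z - a‖)) :=
          lintegral_add_left hm2 _
      _ ≤ _ := by gcongr

/-- the pointwise inequality -/
theorem ENQ_point {f : Polynomial ℂ} {q : ℂ → ℂ} (z : ℂ) (hz : TT f q z = q z) :
    ENNReal.ofReal (XPS.Df f q z) + ENNReal.ofReal ‖q z‖ ≤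
      ((pre f z).map fun y => ENNReal.ofReal ‖q y‖ / ENNReal.ofReal (‖fd f y‖ ^ 2)).sum := by
  have h4 := MI_pos (pre f z) f q
  obtain ⟨h1, h2⟩ := MD_ofReal (pre f z) (fun y => ‖q y‖) (fun y => ‖fd f y‖ ^ 2)
    (fun y => norm_nonneg _) (fun y => by positivity)
  have hD : 0 ≤ XPS.Df f q z := by
    unfold XPS.Df TT
    linarith
  rw [← ENNReal.ofReal_add hD (norm_nonneg _)]
  refine le_trans ?_ h2
  apply ENNReal.ofReal_le_ofReal
  unfold XPS.Df
  rw [hz]
  linarith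

/-- behaviour of `|q|` near the poles -/
theorem ENQ_loc (b α β : ι → ℂ) (hb : Function.Injective b) :
    ∃ C : ℝ, 0 ≤ C ∧ ∀ᶠ t in 𝓝[>] (0 : ℝ), ∀ i : ι, ∀ z : ℂ, z ≠ b i → ‖z - b i‖ < t →
      |‖ENQ_q b α β z‖ - ‖α i‖ / ‖z - b i‖ ^ 2| ≤ C / ‖z - b i‖ := by
  classical
  set H : ι → ℂ → ℂ := fun i z =>
    ∑ j ∈ Finset.univ.erase i, (α j / (z - b j) ^ 2 + β j / (z - b j)) with hH
  set M : ι → ℝ := fun i => ‖H i (b i)‖ + 1 with hM
  have hM0 : ∀ i, 0 ≤ M i := fun i => by positivity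
  refine ⟨∑ i, (‖β i‖ + M i), Finset.sum_nonneg fun i _ => add_nonneg (norm_nonneg _) (hM0 i), ?_⟩
  rw [eventually_all]
  intro i
  have hcont : ContinuousAt (H i) (b i) := by
    refine tendsto_finset_sum _ fun j hj => ?_
    have hne : b i - b j ≠ 0 := by
      rw [sub_ne_zero]
      intro h
      exact (Finset.ne_of_mem_erase hj) (hb h).symm
    have h1 : ContinuousAt (fun z : ℂ => z - b j) (b i) := by fun_prop
    exact (continuousAt_const.div (h1.pow 2) (pow_ne_zero 2 hne)).add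
      (continuousAt_const.div h1 hne)
  have hlt : ∀ᶠ z in 𝓝 (b i), ‖H i z‖ < M i := by
    have := hcont.norm
    exact this.eventually (gt_mem_nhds (by simp [hM]))
  obtain ⟨δ, hδ, hδ2⟩ := Metric.eventually_nhds_iff_ball.mp hlt
  have hev : ∀ᶠ t in 𝓝[>] (0 : ℝ), t < min δ 1 :=
    nhdsWithin_le_nhds (gt_mem_nhds (lt_min hδ one_pos))
  filter_upwards [hev] with t ht z hz hzt
  have hpos : 0 < ‖z - b i‖ := norm_pos_iff.mpr (sub_ne_zero.mpr hz)
  have h1 : ‖H i z‖ ≤ M i := by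
    refine (hδ2 z ?_).le
    rw [mem_ball, dist_eq_norm]
    exact hzt.trans (ht.trans_le (min_le_left _ _))
  have hle1 : ‖z - b i‖ ≤ 1 := (hzt.trans (ht.trans_le (min_le_right _ _))).le
  have hB : ENQ_q b α β z = α i / (z - b i) ^ 2 + (β i / (z - b i) + H i z) := by
    rw [hH, ENQ_q, ← Finset.add_sum_erase Finset.univ _ (Finset.mem_univ i)]
    ring
  have h2 : ‖α i‖ / ‖z - b i‖ ^ 2 = ‖α i / (z - b i) ^ 2‖ := by
    rw [norm_div, norm_pow]
  rw [hB, h2]
  have h3 := abs_norm_sub_norm_le (α i / (z - b i) ^ 2 + (β i / (z - b i) + H i z))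
    (α i / (z - b i) ^ 2)
  refine h3.trans ?_
  rw [add_sub_cancel_left]
  refine (norm_add_le _ _).trans ?_
  rw [norm_div]
  have h4 : ‖β i‖ / ‖z - b i‖ + ‖H i z‖ ≤ (‖β i‖ + M i) / ‖z - b i‖ := by
    rw [add_div]
    gcongr
    rw [le_div_iff₀ hpos]
    nlinarith [norm_nonneg (H i z), hM0 i]
  refine h4.trans ?_
  gcongr
  exact Finset.single_le_sum (f := fun i => ‖β i‖ + M i)
    (fun i _ => add_nonneg (norm_nonneg _) (hM0 i)) (Finset.mem_univ i)

/-- disjointness of small balls -/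
theorem ENQ_disj (b : ι → ℂ) (hb : Function.Injective b) :
    ∀ᶠ t in 𝓝[>] (0 : ℝ), ∀ i j : ι, i ≠ j → Disjoint (ball (b i) t) (ball (b j) t) := by
  rw [eventually_all]
  intro i
  rw [eventually_all]
  intro j
  by_cases hij : i = j
  · exact Eventually.of_forall fun t h => absurd hij h
  · have hd : 0 < dist (b i) (b j) := dist_pos.mpr fun h => hij (hb h)
    have hev : ∀ᶠ t in 𝓝[>] (0 : ℝ), t < dist (b i) (b j) / 2 :=
      nhdsWithin_le_nhds (gt_mem_nhds (by positivity))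
    filter_upwards [hev] with t ht _
    exact ball_disjoint_ball (by linarith)

theorem ENQ_in (b : ι → ℂ) {R : ℝ} (hR : ∀ i, ‖b i‖ < R) :
    ∀ᶠ t in 𝓝[>] (0 : ℝ), ∀ i : ι, ball (b i) t ⊆ ball 0 R := by
  rw [eventually_all]
  intro i
  have hev : ∀ᶠ t in 𝓝[>] (0 : ℝ), t < R - ‖b i‖ :=
    nhdsWithin_le_nhds (gt_mem_nhds (by have := hR i; linarith))
  filter_upwards [hev] with t ht
  apply ball_subset_ball'
  rw [dist_zero_right]
  linarith

/-- `f` maps small discs around `b i` into small discs around `b (σ i)`. -/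
theorem ENQ_der {f : Polynomial ℂ} {b : ι → ℂ} {σ : ι → ι} (hst : ∀ i, f.eval (b i) = b (σ i))
    (hf0 : ∀ i, fd f (b i) ≠ 0) {η : ℝ}
    (hη : 0 < η) : ∀ᶠ t in 𝓝[>] (0 : ℝ), ∀ i : ι, ∀ y : ℂ, ‖y - b i‖ < t →
      ‖f.eval y - b (σ i)‖ ≤ (1 + η) * ‖fd f (b i)‖ * ‖y - b i‖ := by
  rw [eventually_all]
  intro i
  have hf0 := hf0 i
  have hd : HasDerivAt (fun y : ℂ => f.eval y) (fd f (b i)) (b i) := f.hasDerivAt (b i)
  have hpos : 0 < η * ‖fd f (b i)‖ := mul_pos hη (norm_pos_iff.mpr hf0)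
  have h1 := (hasDerivAt_iff_isLittleO.mp hd).bound hpos
  obtain ⟨δ, hδ, hδ2⟩ := Metric.eventually_nhds_iff_ball.mp h1
  have hev : ∀ᶠ t in 𝓝[>] (0 : ℝ), t < δ := nhdsWithin_le_nhds (gt_mem_nhds hδ)
  filter_upwards [hev] with t ht y hy
  have h2 := hδ2 y (by rw [mem_ball, dist_eq_norm]; exact hy.trans ht)
  rw [smul_eq_mul, hst i] at h2
  calc ‖f.eval y - b (σ i)‖
      = ‖(f.eval y - b (σ i) - (y - b i) * fd f (b i)) + (y - b i) * fd f (b i)‖ := by
        congr 1; ring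
    _ ≤ ‖f.eval y - b (σ i) - (y - b i) * fd f (b i)‖ + ‖(y - b i) * fd f (b i)‖ :=
        norm_add_le _ _
    _ ≤ η * ‖fd f (b i)‖ * ‖y - b i‖ + ‖y - b i‖ * ‖fd f (b i)‖ := by
        rw [norm_mul]
        gcongr
    _ = _ := by ring

/-- the inequality outside of small discs. -/
theorem ENQ_core (hMI0 : MPS.MI_stmt) (hMCV : PPS.MCV_stmt)
    {f : Polynomial ℂ} {b α β : ι → ℂ} {σ : ι → ι} {R : ℝ} (hn : 1 ≤ f.natDegree)
    (hf0 : ∀ i, fd f (b i) ≠ 0)
    (hinv : ∀ y : ℂ, ‖f.eval y‖ < R → ‖y‖ < R)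
    (hT : ∀ᵐ z : ℂ, TT f (ENQ_q b α β) z = ENQ_q b α β z) {η C r t : ℝ} (hη : 0 < η) (hC : 0 ≤ C)
    (hr : 0 < r) (hrt : r ≤ t) (hst : ∀ i, r / ((1 + η) * ‖fd f (b i)‖) ≤ t)
    (P1 : ∀ i : ι, ∀ z : ℂ, z ≠ b i → ‖z - b i‖ < t →
      |‖ENQ_q b α β z‖ - ‖α i‖ / ‖z - b i‖ ^ 2| ≤ C / ‖z - b i‖)
    (P2 : ∀ i j : ι, i ≠ j → Disjoint (ball (b i) t) (ball (b j) t))
    (P2' : ∀ i : ι, ball (b i) t ⊆ ball 0 R)
    (P3 : ∀ i : ι, ∀ y : ℂ, ‖y - b i‖ < t →
      ‖f.eval y - b (σ i)‖ ≤ (1 + η) * ‖fd f (b i)‖ * ‖y - b i‖) :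
    ∫⁻ z in ball (0 : ℂ) R \ ⋃ i, ball (b i) r, ENNReal.ofReal (XPS.Df f (ENQ_q b α β) z) ≤
      ENNReal.ofReal (2 * Real.pi * (∑ i, ‖α i‖ * (Real.log (1 + η) + Real.log ‖fd f (b i)‖)) +
        4 * Real.pi * (Fintype.card ι) * C * t) := by
  classical
  have hBm := ENQ_meas b α β
  have ht : 0 < t := hr.trans_le hrt
  set s : ι → ℝ := fun i => r / ((1 + η) * ‖fd f (b i)‖) with hs
  have hfpos : ∀ i, 0 < ‖fd f (b i)‖ := fun i => norm_pos_iff.mpr (hf0 i)
  have hs0 : ∀ i, 0 < s i := fun i => by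
    have := hfpos i
    simp only [hs]
    positivity
  set K := ball (0 : ℂ) R \ ⋃ i, ball (b i) r with hK
  set L := ball (0 : ℂ) R \ ⋃ i, ball (b i) (s i) with hL
  set W := ball (0 : ℂ) R \ ⋃ i, ball (b i) t with hW
  set F : ℂ → ENNReal := fun z => ENNReal.ofReal ‖ENQ_q b α β z‖ with hF
  have hFm : Measurable F := hBm.norm.ennreal_ofReal
  have hKm : MeasurableSet K :=
    measurableSet_ball.diff (MeasurableSet.iUnion fun i => measurableSet_ball)
  have hLm : MeasurableSet L :=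
    measurableSet_ball.diff (MeasurableSet.iUnion fun i => measurableSet_ball)
  -- preimage
  have hpre : {y : ℂ | f.eval y ∈ K} ⊆ L := by
    intro y hy
    rw [mem_ofPred_eq, hK, Set.mem_sdiff, mem_ball, dist_zero_right] at hy
    obtain ⟨hy1, hy2⟩ := hy
    rw [hL, Set.mem_sdiff, mem_ball, dist_zero_right]
    refine ⟨hinv y hy1, ?_⟩
    intro h
    rw [mem_iUnion] at h
    obtain ⟨i, hi⟩ := h
    rw [mem_ball, dist_eq_norm] at hi
    apply hy2
    rw [mem_iUnion]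
    refine ⟨σ i, ?_⟩
    rw [mem_ball, dist_eq_norm]
    have h1 := P3 i y (hi.trans_le (hst i))
    have h2 : (1 + η) * ‖fd f (b i)‖ * ‖y - b i‖ < (1 + η) * ‖fd f (b i)‖ * s i := by
      have := hfpos i
      gcongr
    have h3 : (1 + η) * ‖fd f (b i)‖ * s i = r := by
      have := (hfpos i).ne'
      simp only [hs]
      field_simp
    linarith
  -- first inequality
  have hX : (∫⁻ z in K, ENNReal.ofReal (XPS.Df f (ENQ_q b α β) z)) + ∫⁻ z in K, F z ≤
      (∫⁻ z in L, F z) := by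
    rw [← lintegral_add_right _ hFm]
    have h1 : ∫⁻ z in K, (ENNReal.ofReal (XPS.Df f (ENQ_q b α β) z) + F z) ≤
        ∫⁻ z in K, ((pre f z).map fun y => F y / ENNReal.ofReal (‖fd f y‖ ^ 2)).sum := by
      refine lintegral_mono_ae ?_
      filter_upwards [ae_restrict_of_ae hT] with z hz
      exact ENQ_point z hz
    refine h1.trans ?_
    rw [hMCV f hn F K hFm hKm]
    exact lintegral_mono_set hpre
  -- second inequality
  have hLW : ∫⁻ z in L, F z ≤ (∫⁻ z in W, F z) +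
      ∑ i, (ENNReal.ofReal (2 * Real.pi * (‖α i‖ * Real.log (t / s i))) +
        ENNReal.ofReal (2 * Real.pi * C * t)) := by
    have hsub : L ⊆ W ∪ ⋃ i, (ball (b i) t \ ball (b i) (s i)) := by
      intro z hz
      by_cases h : z ∈ ⋃ i, ball (b i) t
      · right
        rw [mem_iUnion] at h ⊢
        obtain ⟨i, hi⟩ := h
        exact ⟨i, hi, fun h' => hz.2 (mem_iUnion.mpr ⟨i, h'⟩)⟩
      · left
        exact ⟨hz.1, h⟩
    calc ∫⁻ z in L, F z ≤ ∫⁻ z in W ∪ ⋃ i, (ball (b i) t \ ball (b i) (s i)), F z :=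
          lintegral_mono_set hsub
      _ ≤ (∫⁻ z in W, F z) + ∫⁻ z in ⋃ i, (ball (b i) t \ ball (b i) (s i)), F z :=
          lintegral_union_le _ _ _
      _ ≤ (∫⁻ z in W, F z) + ∑' i, ∫⁻ z in ball (b i) t \ ball (b i) (s i), F z := by
          gcongr
          exact lintegral_iUnion_le _ _
      _ ≤ _ := by
          rw [tsum_fintype]
          gcongr with i _
          exact (ENQ_annB hMI0 hBm hC (norm_nonneg _) (hs0 i) (hst i) (P1 i)).1
  -- third inequality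
  have hKW : (∫⁻ z in W, F z) + ∑ i : ι, ENNReal.ofReal (2 * Real.pi * (‖α i‖ * Real.log (t / r))) ≤
      (∫⁻ z in K, F z) + ∑ _i : ι, ENNReal.ofReal (2 * Real.pi * C * t) := by
    have hdis : Pairwise (Function.onFun Disjoint fun i => ball (b i) t \ ball (b i) r) := by
      intro i j hij
      exact (P2 i j hij).mono sdiff_subset sdiff_subset
    have hsub : W ∪ ⋃ i, (ball (b i) t \ ball (b i) r) ⊆ K := by
      intro z hz
      rcases hz with hz | hz
      · refine ⟨hz.1, fun h => hz.2 ?_⟩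
        rw [mem_iUnion] at h ⊢
        obtain ⟨i, hi⟩ := h
        exact ⟨i, ball_subset_ball hrt hi⟩
      · rw [mem_iUnion] at hz
        obtain ⟨i, hi1, hi2⟩ := hz
        refine ⟨P2' i hi1, fun h => ?_⟩
        rw [mem_iUnion] at h
        obtain ⟨j, hj⟩ := h
        by_cases hij : i = j
        · rw [hij] at hi2
          exact hi2 hj
        · exact (disjoint_left.mp (P2 i j hij) hi1) (ball_subset_ball hrt hj)
    have hdW : Disjoint W (⋃ i, (ball (b i) t \ ball (b i) r)) := by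
      rw [disjoint_left]
      intro z hz h
      apply hz.2
      rw [mem_iUnion] at h ⊢
      obtain ⟨i, hi⟩ := h
      exact ⟨i, hi.1⟩
    have h1 : (∫⁻ z in W, F z) + ∑ i, ∫⁻ z in ball (b i) t \ ball (b i) r, F z ≤
        ∫⁻ z in K, F z := by
      have h2 : (∫⁻ z in W, F z) + ∑ i, ∫⁻ z in ball (b i) t \ ball (b i) r, F z =
          ∫⁻ z in W ∪ ⋃ i, (ball (b i) t \ ball (b i) r), F z := by
        rw [lintegral_union (MeasurableSet.iUnion fun i => MPS.MD_ann_meas _ _ _) hdW,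
          lintegral_iUnion (fun i => MPS.MD_ann_meas _ _ _) hdis, tsum_fintype]
      rw [h2]
      exact lintegral_mono_set hsub
    calc (∫⁻ z in W, F z) + ∑ i : ι, ENNReal.ofReal (2 * Real.pi * (‖α i‖ * Real.log (t / r)))
        ≤ (∫⁻ z in W, F z) + ∑ i : ι, ((∫⁻ z in ball (b i) t \ ball (b i) r, F z) +
            ENNReal.ofReal (2 * Real.pi * C * t)) := by
          gcongr with i _
          exact (ENQ_annB hMI0 hBm hC (norm_nonneg _) hr hrt (P1 i)).2
      _ = ((∫⁻ z in W, F z) + ∑ i : ι, ∫⁻ z in ball (b i) t \ ball (b i) r, F z) +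
            ∑ _i : ι, ENNReal.ofReal (2 * Real.pi * C * t) := by
          rw [Finset.sum_add_distrib, add_assoc]
      _ ≤ _ := by gcongr
  -- finiteness
  have hKfin : ∫⁻ z in K, F z ≠ ⊤ := by
    have hb : ∀ z ∈ K, F z ≤ ENNReal.ofReal (∑ i, (‖α i‖ / r ^ 2 + ‖β i‖ / r)) := by
      intro z hz
      apply ENNReal.ofReal_le_ofReal
      unfold ENQ_q
      refine (norm_sum_le _ _).trans (Finset.sum_le_sum fun i _ => ?_)
      have hri : r ≤ ‖z - b i‖ := by
        by_contra h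
        apply hz.2
        rw [mem_iUnion]
        exact ⟨i, by rw [mem_ball, dist_eq_norm]; linarith⟩
      refine (norm_add_le _ _).trans ?_
      rw [norm_div, norm_div, norm_pow]
      gcongr
    refine ne_top_of_le_ne_top ?_ (setLIntegral_mono' hKm hb)
    rw [setLIntegral_const]
    refine ENNReal.mul_ne_top ENNReal.ofReal_ne_top ?_
    exact ((measure_mono sdiff_subset).trans_lt measure_ball_lt_top).ne
  -- logarithms
  have hlog : ∀ i, Real.log (t / s i) =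
      Real.log (t / r) + (Real.log (1 + η) + Real.log ‖fd f (b i)‖) := by
    intro i
    have h1 : t / s i = (t / r) * ((1 + η) * ‖fd f (b i)‖) := by
      have := (hfpos i).ne'
      simp only [hs]
      field_simp
    have h2 := (hfpos i).ne'
    rw [h1, Real.log_mul (by positivity) (by positivity), Real.log_mul (by positivity) h2]
  have hlogs0 : ∀ i, 0 ≤ Real.log (t / s i) := fun i =>
    Real.log_nonneg (by rw [le_div_iff₀ (hs0 i), one_mul]; exact hst i)
  have hlogr0 : 0 ≤ Real.log (t / r) :=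
    Real.log_nonneg (by rw [le_div_iff₀ hr, one_mul]; exact hrt)
  have hpi := Real.pi_pos
  set a0 : ℝ := ∑ i, 2 * Real.pi * (‖α i‖ * Real.log (t / r)) with ha0
  set d : ℝ := (Fintype.card ι) * (2 * Real.pi * C * t) with hd
  have hk0 : (0 : ℝ) ≤ Fintype.card ι := Nat.cast_nonneg _
  have hd0 : 0 ≤ d := by positivity
  have ha00 : 0 ≤ a0 := Finset.sum_nonneg fun i _ => by positivity
  set v : ℝ := 2 * Real.pi * (∑ i, ‖α i‖ * (Real.log (1 + η) + Real.log ‖fd f (b i)‖)) with hv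
  have hav0 : 0 ≤ a0 + v := by
    have : a0 + v = ∑ i, 2 * Real.pi * (‖α i‖ * Real.log (t / s i)) := by
      rw [ha0, hv, Finset.mul_sum, ← Finset.sum_add_distrib]
      refine Finset.sum_congr rfl fun i _ => ?_
      rw [hlog i]
      ring
    rw [this]
    exact Finset.sum_nonneg fun i _ => by have := hlogs0 i; positivity
  have hS1 : ∑ i : ι, ENNReal.ofReal (2 * Real.pi * (‖α i‖ * Real.log (t / r))) =
      ENNReal.ofReal a0 := by
    rw [← ENNReal.ofReal_sum_of_nonneg (fun i _ => by positivity)]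
  have hS2 : ∑ _i : ι, ENNReal.ofReal (2 * Real.pi * C * t) = ENNReal.ofReal d := by
    rw [← ENNReal.ofReal_sum_of_nonneg (fun i _ => by positivity), Finset.sum_const,
      Finset.card_univ, nsmul_eq_mul]
  have hS3 : ∑ i, ENNReal.ofReal (2 * Real.pi * (‖α i‖ * Real.log (t / s i))) =
      ENNReal.ofReal (a0 + v) := by
    rw [← ENNReal.ofReal_sum_of_nonneg (fun i _ => by have := hlogs0 i; positivity)]
    congr 1
    rw [ha0, hv, Finset.mul_sum, ← Finset.sum_add_distrib]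
    refine Finset.sum_congr rfl fun i _ => ?_
    rw [hlog i]
    ring
  rw [Finset.sum_add_distrib, hS3, hS2] at hLW
  rw [hS1, hS2] at hKW
  set X := ∫⁻ z in K, ENNReal.ofReal (XPS.Df f (ENQ_q b α β) z) with hXdef
  set IK := ∫⁻ z in K, F z with hIK
  set IL := ∫⁻ z in L, F z with hIL
  set IW := ∫⁻ z in W, F z with hIW
  have hfinal : IK + (X + ENNReal.ofReal a0) ≤ IK + (ENNReal.ofReal (a0 + v) + ENNReal.ofReal (d + d)) := by
    calc IK + (X + ENNReal.ofReal a0) = (X + IK) + ENNReal.ofReal a0 := by ring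
      _ ≤ IL + ENNReal.ofReal a0 := by gcongr
      _ ≤ (IW + (ENNReal.ofReal (a0 + v) + ENNReal.ofReal d)) + ENNReal.ofReal a0 := by
          gcongr
      _ = (IW + ENNReal.ofReal a0) + (ENNReal.ofReal (a0 + v) + ENNReal.ofReal d) := by ring
      _ ≤ (IK + ENNReal.ofReal d) + (ENNReal.ofReal (a0 + v) + ENNReal.ofReal d) := by gcongr
      _ = _ := by
          rw [ENNReal.ofReal_add hd0 hd0]
          ring
  have h4 := ENNReal.le_of_add_le_add_left hKfin hfinal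
  rw [← ENNReal.ofReal_add hav0 (by positivity)] at h4
  have hXfin : X ≠ ⊤ := by
    refine ne_top_of_le_ne_top ?_ (le_self_add.trans h4)
    exact ENNReal.ofReal_ne_top
  have h5 : X.toReal + a0 ≤ a0 + v + (d + d) := by
    have h6 := ENNReal.toReal_mono ENNReal.ofReal_ne_top h4
    rwa [ENNReal.toReal_add hXfin ENNReal.ofReal_ne_top, ENNReal.toReal_ofReal ha00,
      ENNReal.toReal_ofReal (by positivity)] at h6
  rw [← ENNReal.ofReal_toReal hXfin]
  apply ENNReal.ofReal_le_ofReal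
  have h7 : 4 * Real.pi * (Fintype.card ι) * C * t = d + d := by rw [hd]; ring
  rw [h7]
  linarith

/-- exhaustion of the punctured disc -/
theorem ENQ_lim (b : ι → ℂ) (R : ℝ) (F : ℂ → ENNReal) {V : ENNReal}
    (h : ∀ᶠ r in 𝓝[>] (0 : ℝ), ∫⁻ z in ball (0 : ℂ) R \ ⋃ i, ball (b i) r, F z ≤ V) :
    ∫⁻ z in ball (0 : ℂ) R, F z ≤ V := by
  have hanti : ∀ r r' : ℝ, r ≤ r' → ball (0 : ℂ) R \ (⋃ i, ball (b i) r') ⊆
      ball (0 : ℂ) R \ ⋃ i, ball (b i) r := by
    intro r r' hrr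
    exact sdiff_subset_sdiff_right (iUnion_mono fun i => ball_subset_ball hrr)
  have hall : ∀ m : ℕ, ∫⁻ z in ball (0 : ℂ) R \ ⋃ i, ball (b i) (1 / ((m : ℝ) + 1)), F z ≤ V := by
    intro m
    have hpos : (0 : ℝ) < 1 / ((m : ℝ) + 1) := by positivity
    have h2 : ∀ᶠ r in 𝓝[>] (0 : ℝ), r < 1 / ((m : ℝ) + 1) :=
      nhdsWithin_le_nhds (gt_mem_nhds hpos)
    obtain ⟨r, hr1, hr2⟩ := (h.and h2).exists
    exact (lintegral_mono_set (hanti r _ hr2.le)).trans hr1
  have hU : (ball (0 : ℂ) R \ range b) =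
      ⋃ m : ℕ, (ball (0 : ℂ) R \ ⋃ i, ball (b i) (1 / ((m : ℝ) + 1))) := by
    ext z
    constructor
    · rintro ⟨hz1, hz2⟩
      have hev : ∀ᶠ m : ℕ in atTop, ∀ i : ι, 1 / ((m : ℝ) + 1) < ‖z - b i‖ := by
        rw [eventually_all]
        intro i
        have hpos : 0 < ‖z - b i‖ := by
          rw [norm_pos_iff, sub_ne_zero]
          intro h
          exact hz2 ⟨i, h.symm⟩
        exact (tendsto_one_div_add_atTop_nhds_zero_nat (𝕜 := ℝ)).eventually (gt_mem_nhds hpos)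
      obtain ⟨m, hm⟩ := hev.exists
      rw [mem_iUnion]
      refine ⟨m, hz1, fun h => ?_⟩
      rw [mem_iUnion] at h
      obtain ⟨i, hi⟩ := h
      rw [mem_ball, dist_eq_norm] at hi
      exact absurd hi (not_lt.mpr (hm i).le)
    · intro h
      rw [mem_iUnion] at h
      obtain ⟨m, hz1, hz2⟩ := h
      refine ⟨hz1, ?_⟩
      rintro ⟨i, rfl⟩
      exact hz2 (mem_iUnion.mpr ⟨i, mem_ball_self (by positivity)⟩)
  have hdir : Directed (· ⊆ ·)
      (fun m : ℕ => ball (0 : ℂ) R \ ⋃ i, ball (b i) (1 / ((m : ℝ) + 1))) := by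
    apply Monotone.directed_le
    intro m m' hmm
    refine hanti _ _ ?_
    gcongr
  have h1 : ∫⁻ z in ball (0 : ℂ) R, F z = ∫⁻ z in ball (0 : ℂ) R \ range b, F z := by
    refine setLIntegral_congr ?_
    have hnull : volume (range b) = 0 := (finite_range b).measure_zero _
    exact (sdiff_null_ae_eq_self hnull).symm
  rw [h1, hU, setLIntegral_iUnion_of_directed F hdir]
  exact iSup_le hall


theorem ENQ_aux (hMI0 : MPS.MI_stmt) (hMCV : PPS.MCV_stmt)
    {f : Polynomial ℂ} {b α β : ι → ℂ} {σ : ι → ι} {R : ℝ} (hn : 1 ≤ f.natDegree)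
    (hb : Function.Injective b)
    (hstep : ∀ i, f.eval (b i) = b (σ i)) (hf0 : ∀ i, fd f (b i) ≠ 0)
    (hbR : ∀ i, ‖b i‖ < R)
    (hinv : ∀ y : ℂ, ‖f.eval y‖ < R → ‖y‖ < R)
    (hT : ∀ᵐ z : ℂ, TT f (ENQ_q b α β) z = ENQ_q b α β z) {δ : ℝ} (hδ : 0 < δ) :
    ∀ᶠ r in 𝓝[>] (0 : ℝ),
    ∫⁻ z in ball (0 : ℂ) R \ ⋃ i, ball (b i) r, ENNReal.ofReal (XPS.Df f (ENQ_q b α β) z) ≤
      ENNReal.ofReal (2 * Real.pi * (∑ i, ‖α i‖ * Real.log ‖fd f (b i)‖) + δ) := by
  obtain ⟨C, hC, hloc⟩ := ENQ_loc b α β hb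
  have hpi := Real.pi_pos
  have hk0 : (0 : ℝ) ≤ Fintype.card ι := Nat.cast_nonneg _
  have hα0 : 0 ≤ ∑ i, ‖α i‖ := Finset.sum_nonneg fun i _ => norm_nonneg _
  -- choice of η
  obtain ⟨η, hη, hη2⟩ : ∃ η : ℝ, 0 < η ∧
      2 * Real.pi * ((∑ i, ‖α i‖) * Real.log (1 + η)) ≤ δ / 2 := by
    refine ⟨δ / (4 * Real.pi * ((∑ i, ‖α i‖) + 1)), by positivity, ?_⟩
    have h1 : Real.log (1 + δ / (4 * Real.pi * ((∑ i, ‖α i‖) + 1))) ≤
        δ / (4 * Real.pi * ((∑ i, ‖α i‖) + 1)) := by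
      have := Real.log_le_sub_one_of_pos
        (show 0 < 1 + δ / (4 * Real.pi * ((∑ i, ‖α i‖) + 1)) by positivity)
      linarith
    have h0 : 0 ≤ Real.log (1 + δ / (4 * Real.pi * ((∑ i, ‖α i‖) + 1))) :=
      Real.log_nonneg (by linarith [show 0 < δ / (4 * Real.pi * ((∑ i, ‖α i‖) + 1)) by positivity])
    calc 2 * Real.pi * ((∑ i, ‖α i‖) * Real.log (1 + δ / (4 * Real.pi * ((∑ i, ‖α i‖) + 1))))
        ≤ 2 * Real.pi * (((∑ i, ‖α i‖) + 1) * (δ / (4 * Real.pi * ((∑ i, ‖α i‖) + 1)))) := by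
          gcongr
          linarith
      _ = δ / 2 := by field_simp; ring
  set A : ℝ := 1 + ∑ i, 1 / ‖fd f (b i)‖ with hA
  have hfpos : ∀ i, 0 < ‖fd f (b i)‖ := fun i => norm_pos_iff.mpr (hf0 i)
  have hsum0 : 0 ≤ ∑ i, 1 / ‖fd f (b i)‖ := Finset.sum_nonneg fun i _ => by
    have := hfpos i; positivity
  have hA1 : 1 ≤ A := by linarith
  have hA0 : 0 < A := by linarith
  have htend : Tendsto (fun r : ℝ => A * r) (𝓝[>] 0) (𝓝[>] 0) := by
    refine tendsto_nhdsWithin_iff.mpr ⟨?_, ?_⟩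
    · have : Tendsto (fun r : ℝ => A * r) (𝓝 0) (𝓝 (A * 0)) := tendsto_const_nhds.mul tendsto_id
      rw [mul_zero] at this
      exact this.mono_left nhdsWithin_le_nhds
    · filter_upwards [self_mem_nhdsWithin] with r hr
      exact mul_pos hA0 hr
  have hsmall : ∀ᶠ r in 𝓝[>] (0 : ℝ), 4 * Real.pi * (Fintype.card ι) * C * (A * r) < δ / 2 := by
    have : Tendsto (fun r : ℝ => 4 * Real.pi * (Fintype.card ι) * C * (A * r)) (𝓝[>] 0) (𝓝 0) := by
      have h1 : Tendsto (fun r : ℝ => 4 * Real.pi * (Fintype.card ι) * C * (A * r)) (𝓝 0)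
          (𝓝 (4 * Real.pi * (Fintype.card ι) * C * (A * 0))) :=
        tendsto_const_nhds.mul (tendsto_const_nhds.mul tendsto_id)
      rw [mul_zero, mul_zero] at h1
      exact h1.mono_left nhdsWithin_le_nhds
    exact this.eventually (gt_mem_nhds (by positivity))
  filter_upwards [self_mem_nhdsWithin, htend.eventually hloc, htend.eventually (ENQ_disj b hb),
    htend.eventually (ENQ_in b hbR), htend.eventually (ENQ_der hstep hf0 hη), hsmall]
    with r hr h1 h2 h3 h4 h5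
  have hr0 : 0 < r := hr
  refine (ENQ_core hMI0 hMCV hn hf0 hinv hT hη hC hr0 (t := A * r) ?_ ?_ h1 h2 h3
    h4).trans ?_
  · nlinarith
  · intro i
    have hf := hfpos i
    have hle : 1 / ‖fd f (b i)‖ ≤ A := by
      have := Finset.single_le_sum (f := fun i => 1 / ‖fd f (b i)‖)
        (fun i _ => by have := hfpos i; positivity) (Finset.mem_univ i)
      linarith
    calc r / ((1 + η) * ‖fd f (b i)‖) ≤ r / (1 * ‖fd f (b i)‖) := by
          gcongr
          linarith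
      _ = 1 / ‖fd f (b i)‖ * r := by rw [one_mul]; ring
      _ ≤ A * r := by gcongr
  · apply ENNReal.ofReal_le_ofReal
    have e1 : 2 * Real.pi * (∑ i, ‖α i‖ * (Real.log (1 + η) + Real.log ‖fd f (b i)‖)) =
      2 * Real.pi * (∑ i, ‖α i‖ * Real.log ‖fd f (b i)‖) +
        2 * Real.pi * ((∑ i, ‖α i‖) * Real.log (1 + η)) := by
      rw [Finset.sum_mul, ← mul_add, ← Finset.sum_add_distrib]
      congr 1
      refine Finset.sum_congr rfl fun i _ => ?_
      ring
    rw [e1]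
    linarith

end

theorem ENQ (hMI0 : MPS.MI_stmt) (hMCV : PPS.MCV_stmt) : ENQ_stmt := by
  classical
  intro f P A G R hn hP hR hinv hT
  set ι := {p : ℂ // p ∈ P} with hι
  set b : ι → ℂ := fun i => i.1 with hb
  have hbi : Function.Injective b := Subtype.val_injective
  set α : ι → ℂ := fun i => A i.1 with hα
  set β : ι → ℂ := fun i => G i.1 with hβ
  set σ : ι → ι := fun i => ⟨f.eval i.1, (hP i.1 i.2).1⟩ with hσ
  have hq : QP P A G = ENQ_q b α β := by
    funext z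
    unfold QP ENQ_q
    rw [← Finset.sum_coe_sort P (fun p => A p / (z - p) ^ 2 + G p / (z - p))]
  have hs : ∑ p ∈ P, ‖A p‖ * Real.log ‖fd f p‖ = ∑ i, ‖α i‖ * Real.log ‖fd f (b i)‖ := by
    rw [← Finset.sum_coe_sort P (fun p => ‖A p‖ * Real.log ‖fd f p‖)]
  rw [hq] at hT ⊢
  rw [hs]
  have h0 : ∀ᵐ z : ℂ, ENNReal.ofReal (XPS.Df f (ENQ_q b α β) z + 2 * ‖XPS.er f (ENQ_q b α β) z‖) =
      ENNReal.ofReal (XPS.Df f (ENQ_q b α β) z) := by
    filter_upwards [hT] with z hz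
    unfold XPS.er
    rw [hz, sub_self, norm_zero, mul_zero, add_zero]
  rw [lintegral_congr_ae (ae_restrict_of_ae h0)]
  refine ge_of_tendsto (x := 𝓝[>] (0 : ℝ)) (f := fun δ : ℝ =>
    ENNReal.ofReal (2 * Real.pi * (∑ i, ‖α i‖ * Real.log ‖fd f (b i)‖) + δ)) ?_ ?_
  · have h1 : Tendsto (fun δ : ℝ => 2 * Real.pi * (∑ i, ‖α i‖ * Real.log ‖fd f (b i)‖) + δ) (𝓝 0)
        (𝓝 (2 * Real.pi * (∑ i, ‖α i‖ * Real.log ‖fd f (b i)‖) + 0)) :=
      tendsto_const_nhds.add tendsto_id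
    rw [add_zero] at h1
    exact (ENNReal.continuous_ofReal.tendsto _).comp (h1.mono_left nhdsWithin_le_nhds)
  · filter_upwards [self_mem_nhdsWithin] with δ hδ
    have h2 := ENQ_aux hMI0 hMCV (σ := σ) hn hbi (fun i => rfl) (fun i => (hP i.1 i.2).2.1)
      (fun i => (hP i.1 i.2).2.2) hinv hT hδ
    exact ENQ_lim b R _ h2

end XPP
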