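import Pool.Agent.helper74.XP.SpecP

/-!
# xp: module FIN (the selection argument)
-/

set_option autoImplicit false

open Complex Metric Set Filter Topology MeasureTheory MPS PPS

noncomputable section

namespace XPP

theorem FIN_bd (n : ℕ) (f : Polynomial ℂ) (hn : 2 ≤ n) (hf : f.natDegree = n) :
    ∃ a : ℝ, 0 < a ∧ Bd n a f := by
  have hl : f.leadingCoeff ≠ 0 := by
    intro h
    rw [Polynomial.leadingCoeff_eq_zero] at h
    rw [h, Polynomial.natDegree_zero] at hf
    omega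
  have hl' : 0 < ‖f.leadingCoeff‖ := norm_pos_iff.mpr hl
  set s : ℝ := ∑ i ∈ Finset.range (n + 1), ‖f.coeff i‖ with hs
  have hs0 : 0 ≤ s := Finset.sum_nonneg fun i _ => norm_nonneg _
  refine ⟨s + 1 / ‖f.leadingCoeff‖, by positivity, hf, ?_, ?_⟩
  · intro i
    by_cases hi : i ≤ n
    · have h1 := Finset.single_le_sum (f := fun i => ‖f.coeff i‖) (fun i _ => norm_nonneg _)
        (Finset.mem_range.mpr (Nat.lt_succ_of_le hi))
      have h2 : 0 < 1 / ‖f.leadingCoeff‖ := by positivity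
      have h3 : ‖f.coeff i‖ ≤ s := h1
      linarith
    · rw [Polynomial.coeff_eq_zero_of_natDegree_lt (by omega), norm_zero]
      positivity
  · rw [add_mul, one_div, inv_mul_cancel₀ hl'.ne']
    nlinarith

theorem FIN_per (f : Polynomial ℂ) {k : ℕ} {z : ℂ} (h : Rep f k z) :
    0 < k ∧ (fun w : ℂ => f.eval w)^[k] z = z := by
  obtain ⟨⟨h1, h2⟩, _⟩ := h
  refine ⟨h1, ?_⟩
  have := Function.isPeriodicPt_minimalPeriod (fun w : ℂ => f.eval w) z
  rw [h2] at this
  exact this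

theorem FIN_orb (f : Polynomial ℂ) (O : CY f) (i : ZMod O.k) (m : ℕ) :
    (fun w : ℂ => f.eval w)^[m] (O.b i) = O.b (i + (m : ZMod O.k)) := by
  induction m with
  | zero => simp
  | succ m ih =>
    rw [Function.iterate_succ_apply', ih, O.cyc.step]
    congr 1
    push_cast
    ring

theorem FIN_cyc (f : Polynomial ℂ) (O : CY f) (i : ZMod O.k) :
    (fun w : ℂ => f.eval w)^[O.k] (O.b i) = O.b i := by
  rw [FIN_orb]
  congr 1
  simp

theorem FIN (hXM : XP.XM_stmt) (hSEQ : SEQ_stmt) (hSEL : SEL_stmt) (hINQ : INQ_stmt)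
    (hENC : ENC_stmt) (hRAD : PPS.RAD_stmt) : FIN_stmt := by
  intro n hn
  have hpi := Real.pi_pos
  have hn0 : (0 : ℝ) ≤ n := Nat.cast_nonneg n
  obtain ⟨ε₁, hε₁, hX⟩ := hXM n (2 * Real.pi * (1 + 4 * n)) hn (by positivity)
  refine ⟨min ε₁ 1, lt_min hε₁ one_pos, ?_⟩
  intro f d S K δ hf hd hδ hb hT
  by_contra hfin
  have hinf : {z : ℂ | ∃ k, Rep f k z ∧ ‖mlt f k z‖ < 1 + min ε₁ 1}.Infinite := hfin
  obtain ⟨O, hO1, hO2⟩ := hSEQ f (min ε₁ 1) (by omega) hinf
  -- drop the first two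
  set C : ℕ → CY f := fun i => O (i + 2) with hC
  have hCmono : StrictMono fun i => (C i).k := fun i j hij => hO1 (by omega)
  have hCk : ∀ i, i + 2 ≤ (C i).k := fun i => hO1.le_apply (x := i + 2)
  have hCL : ∀ i, (C i).L ≤ min ε₁ 1 := by
    intro i
    have h1 : 0 < ‖rho f (C i).b‖ := one_pos.trans (C i).rep
    have h2 := Real.log_le_sub_one_of_pos h1
    have h3 := hO2 (i + 2)
    change Real.log ‖rho f (C i).b‖ ≤ _
    have h4 : ‖rho f (C i).b‖ < 1 + min ε₁ 1 := h3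
    linarith
  have hLpos : ∀ i, 0 < (C i).L := fun i => Real.log_pos (C i).rep
  obtain ⟨J, hJ, hsel⟩ := hSEL d (fun i m => S (C i) m) (fun i => (C i).L) δ (max K 1) hδ (by
    intro i
    have h1 := hb (C i) (by have := hCk i; omega) ((hCL i).trans (min_le_right _ _))
    exact ⟨h1.1, (hCL i).trans ((min_le_right _ _).trans (le_max_right _ _)),
      fun m hm => (h1.2 m hm).trans (le_max_left _ _)⟩)
  obtain ⟨a₀, ha₀, hBd⟩ := FIN_bd n f hn hf
  obtain ⟨A, hA1, hA⟩ := hRAD n a₀ hn ha₀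
  obtain ⟨_, hA2, hA3⟩ := hA f hBd
  have hper : ∀ (k : ℕ) (z : ℂ), Rep f k z → ‖z‖ < (A + 1) - 1 := by
    intro k z hz
    obtain ⟨h1, h2⟩ := FIN_per f hz
    have := hA3 k z h1 h2
    linarith
  have hcyR : ∀ (D : CY f) (i : ZMod D.k), ‖D.b i‖ < A + 1 := by
    intro D i
    have := hA3 D.k (D.b i) (Nat.pos_of_ne_zero D.hk.out) (FIN_cyc f D i)
    linarith
  obtain ⟨k₀, hk₀⟩ := hINQ f J C 2 ε₁ (A + 1) (by omega) hε₁ hper
  obtain ⟨i, hi, a, ha, haJ⟩ := hsel k₀
  have hik : k₀ ≤ (C i).k := by have := hCk i; omega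
  obtain ⟨hlt, hinq⟩ := hk₀ (C i) hik
  have hinv := hT (C i) J C a ha
  obtain ⟨hbP, hrd, heng⟩ := hENC n f (C i) J C a (A + 1) hn hf (hcyR (C i))
    (fun j _ => hcyR (C j)) (fun j hj => (hlt j hj).ne)
    (fun j _ j' _ h => hCmono.injective h) (by linarith) (fun y hy => hA2 (A + 1) y (by linarith) hy)
    hinv
  have hsum : ∑ j ∈ J, ‖a j‖ * (C j).L ≤ 4 * n * (C i).L := by
    calc ∑ j ∈ J, ‖a j‖ * (C j).L ≤ ∑ j ∈ J, 2 * (2 * (C i).L) := by
          refine Finset.sum_le_sum fun j hj => ?_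
          obtain ⟨h1, h2⟩ := haJ j hj
          have := (hLpos j).le
          exact mul_le_mul h1 h2 this (by norm_num)
      _ = J.card * (4 * (C i).L) := by
          rw [Finset.sum_const, nsmul_eq_mul]
          ring
      _ ≤ n * (4 * (C i).L) := by
          have h1 : (J.card : ℝ) ≤ n := by exact_mod_cast hJ.trans hd
          have := (hLpos i).le
          gcongr
      _ = _ := by ring
  refine hX (C i).k f (C i).b (C i).g (rJ J C a) (PJ J C) (A + 1) (by have := hCk i; omega) hf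
    (C i).cyc (C i).ex (C i).rep ((hCL i).trans (min_le_left _ _)) hbP hrd ?_ ?_
  · refine ⟨heng.hn, heng.hdeg, heng.ad, heng.posR, heng.inv, ?_, heng.hE.trans ?_⟩
    · have := (hLpos i).le
      change 0 ≤ 2 * Real.pi * (1 + 4 * n) * (C i).L
      positivity
    · apply ENNReal.ofReal_le_ofReal
      change _ ≤ 2 * Real.pi * (1 + 4 * n) * (C i).L
      have : 2 * Real.pi * (1 + 4 * n) * (C i).L = 2 * Real.pi * ((C i).L + 4 * n * (C i).L) := by ring
      rw [this]
      gcongr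
  · intro l t ht hx
    exact hinq a l t (fun j hj => (haJ j hj).1) ht hx

end XPP
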