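import Pool.Agent.helper60.XP.Defs
import Pool.Agent.helper36.V3.SpecW
import Pool.Agent.helper36.PP.SpecM

/-!
# Project xp: (MP_af9036_an, Theorem X'): part P (cycles of a fixed polynomial: energy, invariance, scales, selection, final theorems)

THEOREM X'. For every `n` there is `ε > 0` such that for every `c` not in the closure of the hyperbolic parameters of `z ^ n + c` only finitely many
cycles of `z ^ n + c` have a multiplier of modulus less than `1 + ε`. (helper60; paper /team-store/MP_af9036_XP_helper60.md.) It is deduced here from the abstract theorem `XP.XM_stmt`.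

This file: everything about a FIXED polynomial `f` and combinations `q = B₀ - ∑ a_j B_j` of the differentials of several cycles: the energy inequality,
the exact invariance `T q = q`, and the sizes of the discs `D(b_i, t)` on which `f^k` is close to the identity.

RULES. File `Pool/Agent/<seat>/XP/XX.lean`, `import Pool.Agent.helper74.XP.SpecP`, `namespace XPP`, `theorem XX (h : YY_stmt) ... : XX_stmt`. Hypotheses may be: other statements of this file (no circles), every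
statement of the specs of mp: (`MPS`), mq: (`MQ`), pp: (`PPS`) and v3: (`V3`, `V3S`, `V3W`) (all proved, see `Pool/Agent/helper54/V3/All.lean`). Auxiliary lemmas prefixed `XX_`. No `sorry`, no double quotes in comments.
-/

set_option autoImplicit false

open Complex Metric Set Filter Topology MeasureTheory MPS PPS Pool.Agent.helper16.Multibrot

noncomputable section

namespace XPP

/-- finite principal parts. -/
def QP (P : Finset ℂ) (A G : ℂ → ℂ) (z : ℂ) : ℂ := ∑ p ∈ P, (A p / (z - p) ^ 2 + G p / (z - p))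

/-- repelling periodic point of exact period `k`. -/
def Rep (f : Polynomial ℂ) (k : ℕ) (z : ℂ) : Prop := Cyc f k z ∧ 1 < ‖mlt f k z‖

/-- a repelling cycle with its exact coefficients. -/
structure CY (f : Polynomial ℂ) where
  k : ℕ
  hk : NeZero k
  b : ZMod k → ℂ
  g : ZMod k → ℂ
  cyc : IsCyc f b
  rep : 1 < ‖rho f b‖
  ex : Exact f b g

attribute [instance] CY.hk

/-- the differential of the cycle. -/
def CY.B {f : Polynomial ℂ} (O : CY f) (z : ℂ) : ℂ := BB O.b O.g z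

/-- the logarithm of the modulus of the multiplier. -/
def CY.L {f : Polynomial ℂ} (O : CY f) : ℝ := Real.log ‖rho f O.b‖

/-- the extra part `- ∑_{j ∈ J} a_j B_{C_j}`. -/
def rJ {f : Polynomial ℂ} (J : Finset ℕ) (C : ℕ → CY f) (a : ℕ → ℂ) (z : ℂ) : ℂ := -∑ j ∈ J, a j * (C j).B z

/-- the poles of the extra part. -/
def PJ {f : Polynomial ℂ} (J : Finset ℕ) (C : ℕ → CY f) : Set ℂ := {z | ∃ j ∈ J, ∃ i, (C j).b i = z}

/-! ## Energy -/

/-- ENQ: the energy inequality for finite principal parts (no assumption that `f` permutes `P`).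
PROOF. Copy of `PPS.MD` (helper87/PP/MD.lean, `MD_core`, `MD_aux`), with `F = ‖QP P A G‖`. Near `p ∈ P`: `|‖QP z‖ - ‖A p‖/‖z - p‖²| ≤ C/‖z - p‖` for `0 < ‖z - p‖ < t` (`t` small: the other terms of the sum are bounded). `K = ball 0 R \ ⋃_p ball p r`,
`L = ball 0 R \ ⋃_p ball p (s p)`, `s p = r/((1+η)‖f'(p)‖)`: `f⁻¹ K ⊆ L` since `f` maps `ball p (s p)` into `ball (f p) r` and `f p ∈ P`. `T|q| - |T q| = T|q| - |q|` almost everywhere, `MCV`: `∫_K T|q| = ∫_{f⁻¹K} |q| ≤ ∫_L |q|`. The annuli: `∫_{s p < |z - p| < t} |q| ≤ 2π ‖A p‖ log(t/s p) + 2π C t` and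
`∫_{r < |z-p| < t} |q| ≥ 2π ‖A p‖ log(t/r) - 2π C t`. So `∫_K Df ≤ 2π ∑ ‖A p‖ (log ‖f'(p)‖ + log(1+η)) + 4π C t #P`; `r → 0`, `t → 0`, `η → 0` (monotone convergence, `MPS.MD_lim`). (The sum may be negative a priori: use `a + X ≤ a + v` in `ℝ`, all integrals are finite.)
`0 ≤ Df` as in `PPS.MI`; measurability: `PPS.MS`. `er = 0` almost everywhere. -/
def ENQ_stmt : Prop := ∀ (f : Polynomial ℂ) (P : Finset ℂ) (A G : ℂ → ℂ) (R : ℝ), 1 ≤ f.natDegree →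
  (∀ p ∈ P, f.eval p ∈ P ∧ fd f p ≠ 0 ∧ ‖p‖ < R) → 0 < R → (∀ y : ℂ, ‖f.eval y‖ < R → ‖y‖ < R) →
  (∀ᵐ z : ℂ, TT f (QP P A G) z = QP P A G z) →
  ∫⁻ z in ball (0 : ℂ) R, ENNReal.ofReal (XPS.Df f (QP P A G) z + 2 * ‖XPS.er f (QP P A G) z‖) ≤
    ENNReal.ofReal (2 * Real.pi * ∑ p ∈ P, ‖A p‖ * Real.log ‖fd f p‖)

/-- ENC: the energy inequality for a combination of cycles of different periods.
PROOF. ENQ: cycles of different exact periods are disjoint. `P` = union of the images of `O.b` and `(C j).b`, `j ∈ J`; `A (O.b i) = 1`, `G (O.b i) = O.g i`, `A ((C j).b i) = -a j`, `G ((C j).b i) = -a j * (C j).g i`, and `0` elsewhere (choice of the index by `Function.Injective`);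
`BB O.b O.g z + rJ J C a z = QP P A G z` for all `z` (sums over images of injective maps, disjoint union). `∑_{p} ‖A p‖ log ‖f' p‖ = log ‖∏ f'(b i)‖ + ∑_j ‖a j‖ log ‖∏ ..‖`. `XPS.AD`: finite, invariance by `step`, differentiable off the poles. -/
def ENC_stmt : Prop := ∀ (n : ℕ) (f : Polynomial ℂ) (O : CY f) (J : Finset ℕ) (C : ℕ → CY f) (a : ℕ → ℂ) (R : ℝ),
  2 ≤ n → f.natDegree = n → (∀ i, ‖O.b i‖ < R) → (∀ j ∈ J, ∀ i, ‖(C j).b i‖ < R) → (∀ j ∈ J, (C j).k ≠ O.k) →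
  (∀ j ∈ J, ∀ j' ∈ J, (C j).k = (C j').k → j = j') → 0 < R → (∀ y : ℂ, ‖f.eval y‖ < R → ‖y‖ < R) →
  (∀ᵐ z : ℂ, TT f (fun z => BB O.b O.g z + rJ J C a z) z = BB O.b O.g z + rJ J C a z) →
  (∀ i, O.b i ∉ PJ J C) ∧ (∀ z, z ∉ PJ J C → DifferentiableAt ℂ (rJ J C a) z) ∧
  XP.Eng n f (Set.range O.b ∪ PJ J C) (fun z => BB O.b O.g z + rJ J C a z) R
    (2 * Real.pi * (O.L + ∑ j ∈ J, ‖a j‖ * (C j).L))

/-- EXG: exact invariance of a combination, general polynomials.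
PROOF. `PPS.ERQ`, first part: `BB b g - TT f (BB b g) = er f b g = TT f (QQ f b g)` almost everywhere, for `O` and all `C j`. `TT f` is additive and homogeneous (multiset sums) and `QQ f b g y = ∑_m lam m * ..` is linear in `lam`: so
`q - TT f q = TT f (QQ_O - ∑ a_j QQ_{C_j}) = TT f 0 = 0` (only `m < n - 1` occurs). -/
def EXG_stmt : Prop := ∀ (n : ℕ) (f : Polynomial ℂ) (O : CY f) (J : Finset ℕ) (C : ℕ → CY f) (a : ℕ → ℂ),
  2 ≤ n → f.natDegree = n →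
  (∀ m < n - 1, lam f O.b O.g m = ∑ j ∈ J, a j * lam f (C j).b (C j).g m) →
  ∀ᵐ z : ℂ, TT f (fun z => BB O.b O.g z + rJ J C a z) z = BB O.b O.g z + rJ J C a z

/-- EXU: exact invariance of a combination, `z ^ n + c`.
PROOF. `V3W.UER` (last part; the hypothesis on `g` is `Exact`, `fd f = MPS.fd n`, `fdd f = MPS.fdd n`): `er = (∑ g)/(z - c)` almost everywhere, for all cycles; `TT f` is additive and homogeneous: `q - TT f q = (∑ O.g - ∑ a_j ∑ (C j).g)/(z - c) = 0`. -/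
def EXU_stmt : Prop := ∀ (n : ℕ) (c : ℂ) (O : CY (Polynomial.X ^ n + Polynomial.C c)) (J : Finset ℕ)
  (C : ℕ → CY (Polynomial.X ^ n + Polynomial.C c)) (a : ℕ → ℂ), 2 ≤ n → ‖c‖ ≤ 3 →
  (∑ i, O.g i = ∑ j ∈ J, a j * ∑ i, (C j).g i) →
  ∀ᵐ z : ℂ, TT (Polynomial.X ^ n + Polynomial.C c) (fun z => BB O.b O.g z + rJ J C a z) z =
    BB O.b O.g z + rJ J C a z

/-! ## Repelling periodic points and scales -/

/-- DLB: derivatives of the iterates at a repelling periodic point.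
PROOF. `‖deriv (it f m) z‖ = ∏_{j<m} ‖fd f (it f j z)‖`; with `m = l k + s`, `s < k`: `= ‖mlt f k z‖^l * ∏_{j<s} ..`; the products for `s < k` are positive (`mlt ≠ 0`): `κ` = their minimum. -/
def DLB_stmt : Prop := ∀ (f : Polynomial ℂ) (k : ℕ) (z : ℂ), Rep f k z →
  (∃ κ > (0 : ℝ), ∀ m : ℕ, κ ≤ ‖deriv (it f m) z‖) ∧ Tendsto (fun m => ‖deriv (it f m) z‖) atTop atTop

/-- NET: a finite net of repelling periodic points.
PROOF. The set of all repelling periodic points is bounded (`PPS.RAD` with `a` large: `Bd n a f`), so it is totally bounded: a finite cover by balls of radius `s/2` with centres anywhere; choose one repelling periodic point in each ball that contains one. -/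
def NET_stmt : Prop := ∀ (f : Polynomial ℂ) (s : ℝ), 2 ≤ f.natDegree → 0 < s → ∃ W : Finset ℂ,
  (∀ w ∈ W, ∃ k, Rep f k w) ∧ ∀ (k : ℕ) (z : ℂ), Rep f k z → ∃ w ∈ W, ‖w - z‖ < s

/-- SMA: near repelling periodic points iterates do not have small images (a), and high iterates have large images (b).
PROOF. NET with `s/2`: `W`; DLB: `κ` = minimum of the `κ` of the points of `W`. (a) `w ∈ W`, `‖w - p‖ < s/2`: `it f m` is holomorphic on `ball w (s/2) ⊆ ball p s` with values in `closedBall q t`: Cauchy (`Complex.norm_deriv_le_of_forall_mem_sphere_norm_le` on spheres of radius `r < s/2`, for `it f m - q`): `κ ≤ ‖deriv‖ ≤ t/r`, so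
`t ≥ κ s/2`. (b) for `K ≥ K₀` all `‖deriv (it f K) w‖ > 2 M/s`, `w ∈ W`. -/
def SMA_stmt : Prop := ∀ (f : Polynomial ℂ) (s : ℝ), 2 ≤ f.natDegree → 0 < s →
  (∃ t₀ > (0 : ℝ), ∀ (m k : ℕ) (p q : ℂ) (t : ℝ), Rep f k p → (∀ z, ‖z - p‖ < s → ‖it f m z - q‖ ≤ t) → t₀ ≤ t) ∧
  ∀ M : ℝ, ∃ K₀ : ℕ, ∀ (m k : ℕ) (p q : ℂ) (t : ℝ), K₀ ≤ m → Rep f k p →
    (∀ z, ‖z - p‖ < s → ‖it f m z - q‖ ≤ t) → M ≤ t

/-- LIN: the linearisation at a repelling periodic point `b'` in an elementary form.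
PROOF. `F = it f k'`, `F b' = b'`, `F'(b') = ρ'`, `‖ρ'‖ > 1`, `θ = 1/‖ρ'‖ < 1`. Local inverse `H₁` of `F` at `b'` (`HasStrictDerivAt.localInverse` or the inverse function theorem), on `ball b' d₁`: `F (H₁ y) = y`, `H₁ b' = b'`, and with `λ = √θ` (or any `θ < λ < 1`) and a constant `C₁`:
`‖H₁ y - H₁ y'‖ ≤ θ (1 + C₁ max (‖y - b'‖) (‖y' - b'‖)) ‖y - y'‖` (the derivative of `H₁` is Lipschitz near `b'`), `‖H₁ y - b'‖ ≤ λ ‖y - b'‖`, `‖H₁ y - b'‖ ≥ θ (1 - C₁ ‖y - b'‖) ‖y - b'‖`. Choose `d ≤ d₁/4` small, such that `C₁ d/(1 - λ)` is small (and see (iii)).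
For `p ≠ b'`, `‖p - b'‖ < d`: `p_j = it f (j k') p`; as long as `‖p_j - b'‖ < d`, `‖p_{j+1} - b'‖ ≥ ‖p_j - b'‖/λ'` (some `λ' < 1`) and `≤ 2‖ρ'‖ ‖p_j - b'‖`, and `H₁ p_{j+1} = p_j` (injectivity of `F` near `b'`). Let `N` be the first index with `‖p_N - b'‖ ≥ d/(4‖ρ'‖)`: `‖p_N - b'‖ < d`. `H = H₁^[N]` on `ball p_N (d/(8‖ρ'‖))` (all the points
stay in `ball b' (2 d)`): `H p_N = p`, `it f (N k') (H y) = y`. With `u_j = ‖H₁^[j] y - p_{N-j}‖`, `v_j = ‖p_{N-j} - b'‖`: `u_{j+1} ≤ θ (1 + 2 C₁ d λ^j) u_j`, `v_{j+1} ≥ θ (1 - C₁ d λ^j) v_j`; the products of the brackets are bounded (`∏ (1 + x_j) ≤ exp ∑ x_j`, `∏ (1 - x_j) ≥ 1 - ∑ x_j`), so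
`‖H y - p‖/‖p - b'‖ ≤ 4 ‖y - p_N‖/‖p_N - b'‖`. (iii) if `it f K p = p`, `0 < K`, then `N k' ≤ K`: otherwise `K = j k' + s`, `s < k'`, `j < N`, `it f s (p_j) = p`; `s = 0` (so `j ≥ 1`) contradicts `‖p_j - b'‖ > ‖p - b'‖`; for `0 < s < k'` the point `it f s b'` is not `b'`, and `it f s` maps `ball b' d` into a neighbourhood of `it f s b'` that is
disjoint from `ball b' d` if `d` is small. -/
def LIN_stmt : Prop := ∀ (f : Polynomial ℂ) (k' : ℕ) (b' : ℂ), 1 ≤ f.natDegree → Rep f k' b' →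
  ∃ d > (0 : ℝ), ∃ r > (0 : ℝ), ∃ C > (0 : ℝ), ∀ p : ℂ, p ≠ b' → ‖p - b'‖ < d →
    ∃ (N : ℕ) (H : ℂ → ℂ), H (it f (N * k') p) = p ∧
      (∀ y, ‖y - it f (N * k') p‖ < r → it f (N * k') (H y) = y ∧
        ‖H y - p‖ ≤ C * ‖p - b'‖ * ‖y - it f (N * k') p‖) ∧
      ∀ K : ℕ, 0 < K → it f K p = p → N * k' ≤ K

/-- INV: the size of the discs on which `f^K` is bounded by a multiple of the radius, compared with the distance from a fixed repelling periodic point `b'`.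
PROOF. LIN: `d, r, C`. Let `p ≠ b'` be repelling periodic, `it f K p = p`, `0 < K`, `‖it f K (p + x) - p‖ ≤ 4 t` for `‖x‖ < t`, and `‖p - b'‖ < A t` (otherwise done). If `t ≤ d/A` then `‖p - b'‖ < d`: LIN gives `N, H`; `bs = it f (N k') p` is a repelling periodic point (on the cycle of `p`: the multiplier is constant along a cycle). Let
`s = min r (1/(C A))`. For `‖y - bs‖ < s`: `‖H y - p‖ ≤ C ‖p - b'‖ s < t`, so `it f (K - N k') y = it f (K - N k') (it f (N k') (H y)) = it f K (H y)` is in `closedBall p (4 t)`. SMA (a) with this `s` (it depends on `f, k', b', A` only): `t₀ ≤ 4 t`. So `t ≥ min (d/A) (t₀/4)` in this case. -/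
def INV_stmt : Prop := ∀ (f : Polynomial ℂ) (k' : ℕ) (b' : ℂ) (A : ℝ), 2 ≤ f.natDegree → Rep f k' b' →
  0 < A → ∃ t₁ > (0 : ℝ), ∀ (K k : ℕ) (p : ℂ) (t : ℝ), Rep f k p → p ≠ b' → 0 < K → it f K p = p →
    0 < t → t < t₁ → (∀ x : ℂ, ‖x‖ < t → ‖it f K (p + x) - p‖ ≤ 4 * t) → A * t ≤ ‖p - b'‖

/-- INQ: the scales of a long cycle, compared with finitely many fixed cycles.
PROOF. The points `O.b i` are repelling periodic of exact period `O.k` (`Cyc`: injectivity of `b` and `step`; `mlt = rho`: the derivative of the iterate is the product over one period). First claim (`t ≤ ε'`, for any `ε' > 0`, if `k₀` is large): SMA (b) with `s = ε'`, `M = 4 ε' + 1`: for `O.k ≥ K₀` the inequality on a disc of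
radius `> ε'` is impossible. Second claim: INV for all points `b'` of the cycles `C j`, `j ∈ J`, with `A = A₀` large: `‖O.b i - b'‖ ≥ A₀ t`. For `‖z - O.b i‖ < t/ε` and `A₀ ≥ 2/ε`: `‖z - b'‖ ≥ A₀ t/2`, and `‖(C j).B z‖ ≤ ∑_{i'} (4/(A₀ t)² + ‖g i'‖ 2/(A₀ t)) ≤ ε''/t²` for `A₀` large and `t ≤ ε'`. The `C j` have periods
different from `O.k` if `O.k ≥ k₀ > ` all `(C j).k`, so `O.b i ≠ b'`. Third: `‖z‖ ≤ ‖O.b i‖ + ε'/ε`; the cycles are in a fixed ball `ball 0 A` (`PPS.RAD`). -/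
def INQ_stmt : Prop := ∀ (f : Polynomial ℂ) (J : Finset ℕ) (C : ℕ → CY f) (M ε rad : ℝ), 2 ≤ f.natDegree →
  0 < ε → (∀ (k : ℕ) (z : ℂ), Rep f k z → ‖z‖ < rad - 1) →
  ∃ k₀ : ℕ, ∀ O : CY f, k₀ ≤ O.k → (∀ j ∈ J, (C j).k < O.k) ∧ ∀ (a : ℕ → ℂ) (i : ZMod O.k) (t : ℝ),
    (∀ j ∈ J, ‖a j‖ ≤ M) → 0 < t →
    (∀ x ∈ ball (0 : ℂ) t, ‖(fun z => f.eval z)^[O.k] (O.b i + x) - O.b i - x‖ ≤ 3 * ‖x‖) →
    ∀ z ∈ ball (O.b i) (t / ε), z ∉ PJ J C ∧ t ^ 2 * ‖rJ J C a z‖ ≤ ε ∧ ‖z‖ < rad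

/-! ## Selection -/

/-- SEQ: infinitely many cycles give a sequence of cycles with increasing periods.
PROOF. For every `k ≥ 1` only finitely many `z` have `it f k z = z` (`f^k(X) - X ≠ 0`: the degree is `n^k ≥ 2`; `Polynomial.iterate_comp_eval`). So the set contains points of arbitrarily large period; `PPS.ZCY` and `PPS.TG` give the element of `CY f`. -/
def SEQ_stmt : Prop := ∀ (f : Polynomial ℂ) (ε : ℝ), 2 ≤ f.natDegree →
  {z : ℂ | ∃ k, Rep f k z ∧ ‖mlt f k z‖ < 1 + ε}.Infinite →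
  ∃ O : ℕ → CY f, StrictMono (fun i => (O i).k) ∧ ∀ i, ‖rho f (O i).b‖ < 1 + ε

/-- SEL: selection of finitely many vectors that span a tail of a bounded sequence with bounded coefficients.
PROOF. The numbers `Λ i` are in `[δ, M]`: finitely many intervals `[δ 2^m, δ 2^(m+1))`: an infinite set `I` of indices with `Λ j ≤ 2 Λ i` for all `i, j ∈ I`. `V_m` = span of `S i`, `i ∈ I`, `i ≥ m`: a decreasing sequence of subspaces of `ℂ^d`, constant `= V` for `m ≥ m₀`, `e = dim V ≤ d`. Fix a basis of `V` (so `det` of `e`-tuples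
is defined); `D` = supremum of `|det (S i_1, ..., S i_e)|` over the tuples of indices in `I`, `≥ m₀`: finite since `S` is bounded, and positive since they span. Choose a tuple with `|det| > D/2`: by Cramer's rule (`Module.Basis.det`, or `Matrix.cramer`) every `S i`, `i ∈ I`, `i ≥ m₀` is a combination with
coefficients `det(.., S i, ..)/det` of modulus `≤ 2`. `J` = the set of the indices of the tuple. (For `d = 1`: if infinitely many `S i = 0`, `i ∈ I`: `J = ∅`; otherwise take `j ∈ I` large with `‖S j‖ > D/2`, `D` the supremum over the tail.) -/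
def SEL_stmt : Prop := ∀ (d : ℕ) (S : ℕ → ℕ → ℂ) (Λ : ℕ → ℝ) (δ M : ℝ), 0 < δ →
  (∀ i, δ ≤ Λ i ∧ Λ i ≤ M ∧ ∀ m < d, ‖S i m‖ ≤ M) →
  ∃ J : Finset ℕ, J.card ≤ d ∧ ∀ i₀ : ℕ, ∃ i, i₀ ≤ i ∧ ∃ a : ℕ → ℂ, (∀ m < d, S i m = ∑ j ∈ J, a j * S j m) ∧
    ∀ j ∈ J, ‖a j‖ ≤ 2 ∧ Λ j ≤ 2 * Λ i

/-! ## Final theorems -/

/-- LBU: a lower bound for the multipliers of `z ^ n + c` if their derivatives are controlled.
PROOF. `V3W.THV` with `K + 1`: if `‖ρ - 1‖ ≤ ε₁`: `(K+1) ‖ρ - 1‖ ≤ ‖∑ g‖ ≤ K L ≤ K ‖ρ - 1‖` (`V3W.LGN`), a contradiction. Otherwise, if `L ≤ ε₁/4` (and `ε₁ ≤ 1`), `‖ρ/‖ρ‖ - 1‖ ≥ ε₁/2` (LGN), and `MQ.THB` with `d₀ = ε₁/2`: `ε₂ ≤ L + ‖∑ g‖ ≤ (1 + K) L`. (`V3W.UER` translates; `PPS.IsCyc f b` for `f = X ^ n + C c` is `MPS.IsCyc n c b`.) -/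
def LBU_stmt : Prop := ∀ (n : ℕ) (K : ℝ), 2 ≤ n → 0 < K → ∃ δ > (0 : ℝ), ∀ (c : ℂ)
  (O : CY (Polynomial.X ^ n + Polynomial.C c)), ‖c‖ ≤ 3 → 2 ≤ O.k → ‖∑ i, O.g i‖ ≤ K * O.L → δ ≤ O.L

/-- FIN: the selection argument.
PROOF. Let `d ≤ n` and let `S : CY f → ℕ → ℂ` be the parameters of the cycles (`m < d`); `ε₁` = the constant of `XP.XM_stmt` for `n`, `C = 2π (1 + 4 n)`; `ε = min ε₁ 1`. Suppose that the set is infinite. SEQ: `O i` with `‖ρ i‖ < 1 + ε`, so `L i ≤ ε ≤ ε₁` (`Real.log_le_sub_one_of_pos`); drop the first terms so that all `k ≥ 2`. SEL for `S i m = S (O i) m`,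
`Λ i = (O i).L ∈ [δ, ε]`: `J`. `rad`: `PPS.RAD` for `f` (`Bd n a f` for large `a`): `A`, `rad = A + 1`. INQ with `C = O`, `M = 2`, `ε₁`: `k₀`. SEL: `i ≥ k₀` and `i > max J`, `a`. Then `TT f q = q` by the hypothesis `hT`; ENC: `Eng` with the energy `2π (L + ∑ ‖a j‖ L_j) ≤ 2π (1 + 4 n) L` (`J.card ≤ d ≤ n`; monotone in `E`).
INQ: the last hypothesis of `XP.XM_stmt`. Contradiction. -/
def FIN_stmt : Prop := ∀ n : ℕ, 2 ≤ n → ∃ ε > (0 : ℝ), ∀ (f : Polynomial ℂ) (d : ℕ) (S : CY f → ℕ → ℂ) (K δ : ℝ), f.natDegree = n →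
  d ≤ n → 0 < δ → (∀ O : CY f, 2 ≤ O.k → O.L ≤ 1 → δ ≤ O.L ∧ ∀ m < d, ‖S O m‖ ≤ K) →
  (∀ (O : CY f) (J : Finset ℕ) (C : ℕ → CY f) (a : ℕ → ℂ), (∀ m < d, S O m = ∑ j ∈ J, a j * S (C j) m) →
    ∀ᵐ z : ℂ, TT f (fun z => BB O.b O.g z + rJ J C a z) z = BB O.b O.g z + rJ J C a z) →
  {z : ℂ | ∃ k, Rep f k z ∧ ‖mlt f k z‖ < 1 + ε}.Finite

/-- XFG: polynomials of degree `n`. The constant depends only on `n`.
PROOF. FIN with `d = n - 1`, `S O m = lam f O.b O.g m`, EXG. `Bd n a f` for large `a`; `δ`: `V3W.THQ` with `K + 1`: `L ≤ ε₂ → (K + 1) L ≤ ∑ ‖lam‖ ≤ K L` is a contradiction, so `L > ε₂`. -/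
def XFG_stmt : Prop := ∀ n : ℕ, 2 ≤ n → ∃ ε > (0 : ℝ), ∀ f : Polynomial ℂ, f.natDegree = n →
  (∃ K : ℝ, ∀ O : CY f, 2 ≤ O.k → ∑ m ∈ Finset.range (n - 1), ‖lam f O.b O.g m‖ ≤ K * O.L) →
  {z : ℂ | ∃ k, Rep f k z ∧ ‖mlt f k z‖ < 1 + ε}.Finite

/-- XFU: `z ^ n + c`. PROOF. FIN with `d = 1`, `S O 0 = ∑ O.g i`, EXU, LBU. -/
def XFU_stmt : Prop := ∀ n : ℕ, 2 ≤ n → ∃ ε > (0 : ℝ), ∀ c : ℂ, ‖c‖ ≤ 3 →
  (∃ K : ℝ, ∀ O : CY (Polynomial.X ^ n + Polynomial.C c), 2 ≤ O.k → ‖∑ i, O.g i‖ ≤ K * O.L) →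
  {z : ℂ | ∃ k, Rep (Polynomial.X ^ n + Polynomial.C c) k z ∧
    ‖mlt (Polynomial.X ^ n + Polynomial.C c) k z‖ < 1 + ε}.Finite

/-- XF: Theorem X'.
PROOF. `‖c‖ ≥ 3`: no such cycles for `ε ≤ 1/2` (`MPS.ZBIG`). `‖c‖ < 3`: `ball c r` disjoint from `hyperbolic n`, `r ≤ 1`: all cycles over the ball are repelling (`MPS.ZN`); ZC, ZCYC, ZL, ZBC as in the proof of `V3W.FW` (helper89/V3/FW.lean) and `MPS.FB`: `‖∑ g‖ = ‖ρ'/ρ‖ ≤ 2 L/r` for every cycle. XFU with `K = 2/r`. Translation: `mlt (X ^ n + C c) k z = MPS.mlt n k c z`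
(`fun w => (X ^ n + C c).eval w` is `fc n c`). -/
def XF_stmt : Prop := ∀ n : ℕ, 2 ≤ n → ∃ ε > (0 : ℝ), ∀ c : ℂ, c ∉ closure (hyperbolic n) →
  {z : ℂ | ∃ k : ℕ, 0 < k ∧ Function.minimalPeriod (fc n c) z = k ∧ ‖MPS.mlt n k c z‖ < 1 + ε}.Finite

end XPP
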