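import Pool.Agent.helper74.XP.SpecP

/-!
# Project xp: (MP_70a088_an): part Q (line fields)

Strengthening of MP_70a088_an.PolynomialLineFields: beyond finitely many cycles the gap `ε` depends only on the degree. Rules: see SpecP (`import Pool.Agent.helper74.XP.SpecQ`).
-/

set_option autoImplicit false

open Complex Metric Set Filter Topology MeasureTheory MPS PPS Pool.Agent.helper98.ILF

noncomputable section

namespace XPP

/-- XLE: the coefficients of a sum of simple poles are bounded by its integral.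
PROOF. Let `r > 0` be such that the discs `closedBall v r`, `v ∈ V`, are in `ball 0 R` and contain no other point of `V`. For `r/2 < t < r`: `∮_{|z - v| = t} ∑_w s w/(z - w) dz = 2π i s v` (Cauchy; `circleIntegral.integral_sub_center_inv`, the other terms are holomorphic on the disc), so
`2π ‖s v‖ ≤ t ∫_0^{2π} ‖∑_w s w/(z - w)‖ dθ`; integrate over `t`: `2π ‖s v‖ r/2 ≤ ∫_{r/2 < |z-v| < r} ‖..‖` (polar coordinates). Alternatively: `s ↦ ∫ ‖∑ s w/(z - w)‖` is a norm on the finite dimensional space of the functions `V → ℂ` (continuous, positive on the unit sphere since the functions `1/(z - w)` are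
linearly independent), so it is bounded below on the unit sphere. -/
def XLE_stmt : Prop := ∀ (V : Finset ℂ) (R : ℝ), (∀ v ∈ V, ‖v‖ < R) → ∃ C > (0 : ℝ), ∀ s : ℂ → ℂ,
  ∀ v ∈ V, ‖s v‖ ≤ C * ∫ z in ball (0 : ℂ) R, ‖∑ w ∈ V, s w / (z - w)‖

/-- XLT: exact invariance of a combination in terms of the coefficients at the critical values.
PROOF. `er` of the cycles is `∑_v s_v/(z - v)` almost everywhere; `TT f` is additive and homogeneous (multiset sums), so `q - TT f q = ∑_v (s v - ∑_j a j * sC j v)/(z - v) = 0` almost everywhere. -/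
def XLT_stmt : Prop := ∀ (f : Polynomial ℂ) (V : Finset ℂ) (O : CY f) (J : Finset ℕ) (C : ℕ → CY f) (a : ℕ → ℂ)
  (s : ℂ → ℂ) (sC : ℕ → ℂ → ℂ), (∀ᵐ z : ℂ, PPS.er f O.b O.g z = ∑ v ∈ V, s v / (z - v)) →
  (∀ j ∈ J, ∀ᵐ z : ℂ, PPS.er f (C j).b (C j).g z = ∑ v ∈ V, sC j v / (z - v)) →
  (∀ v ∈ V, s v = ∑ j ∈ J, a j * sC j v) →
  ∀ᵐ z : ℂ, TT f (fun z => BB O.b O.g z + rJ J C a z) z = BB O.b O.g z + rJ J C a z

/-- XLG: the finiteness theorem in terms of the error term.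
PROOF. FIN with `d = #CV f ≤ n - 1` (`PPS.PRB`), `V` = the finite set of critical values, `v_m` (`m < d`) an enumeration (`V.equivFin`), `S O m = s_O (v_m)` with `s_O` from `PPS.ERV` (choice), and the bounds: `‖s_O v‖ ≤ C ∫_{ball 0 R} ‖er‖ ≤ C K O.L ≤ C K` (XLE; `er = ∑ ..` almost everywhere, `O.L ≤ 1`). XLT. -/
def XLG_stmt : Prop := ∀ n : ℕ, 2 ≤ n → ∃ ε > (0 : ℝ), ∀ (f : Polynomial ℂ) (R K δ : ℝ), f.natDegree = n →
  (∀ v ∈ CV f, ‖v‖ < R) → 0 < δ → (∀ O : CY f, 2 ≤ O.k → O.L ≤ 1 → δ ≤ O.L ∧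
    ∫ z in ball (0 : ℂ) R, ‖PPS.er f O.b O.g z‖ ≤ K * O.L) →
  {z : ℂ | ∃ k, Rep f k z ∧ ‖mlt f k z‖ < 1 + ε}.Finite

/-- XLF: line fields: only finitely many repelling cycles have a multiplier of modulus `< 1 + ε`, `ε` depending only on the degree.
PROOF. XLG. `R` large with `CV f ⊆ ball 0 R`; `K = Cf R` from `V3W.FLE`; `δ = log (1 + η)`, `η` from `V3W.FLQ` (`rho f O.b = mlt f O.k (O.b 0)`, `Cyc f O.k (O.b 0)`). -/
def XLF_stmt : Prop := ∀ n : ℕ, 2 ≤ n → ∃ ε > (0 : ℝ), ∀ (f : Polynomial ℂ), f.natDegree = n →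
  (∀ v ∈ PPS.CV f, v ∈ juliaSet (fun z : ℂ => f.eval z) ∨ PPS.Esc f v ∨ ∃ p, PPS.APt f p ∧ PPS.Att f p v) →
  ∀ μ : Fin (PPS.CV f ∩ juliaSet (fun z : ℂ => f.eval z)).ncard → ℂ → ℂ,
  (∀ i, IsInvariantLineField (fun z : ℂ => f.eval z) (μ i)) →
  (∀ l : Fin (PPS.CV f ∩ juliaSet (fun z : ℂ => f.eval z)).ncard → ℂ,
    (∀ᵐ z : ℂ, ∑ i, l i * μ i z = 0) → l = 0) →
  {z : ℂ | ∃ k, Rep f k z ∧ ‖mlt f k z‖ < 1 + ε}.Finite

end XPP
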