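import Pool.Agent.helper74.XP.SpecQ

/-!
# Project xp: (MP_af9036_an): part R (uniform form of Theorem X')

THEOREM X'u. For every `n` there is `ε > 0` and for every `r > 0` there is `K` such that at all `c` with `dist(c, H_n) ≥ r` every cycle of period at least `K` has a multiplier of modulus at least `1 + ε`. (`ε` does not depend on `r`.)
Rules: see SpecP (`import Pool.Agent.helper74.XP.SpecR`).
-/

set_option autoImplicit false

open Complex Metric Set Filter Topology MeasureTheory MPS PPS Pool.Agent.helper16.Multibrot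

noncomputable section

namespace XPP

/-- HAK: Harnack's inequality for the logarithm of a holomorphic function of modulus `> 1`.
PROOF. As `MPS.ZBC` (see its proof): `L` holomorphic on the ball with `exp L = ρ`, `re L > 0`; `φ = (L - L c)/(L + conj (L c))` maps the ball to the unit disc, `φ c = 0`, so `‖φ c'‖ ≤ ‖c' - c‖/r ≤ 1/2` (Schwarz lemma). With `a = L c'`, `b = L c`, `x = re a`, `y = re b`: `‖a - b‖ ≤ ‖a + conj b‖/2`, so
`|x - y|² + t² ≤ ((x + y)² + t²)/4` (`t = im a - im b`), so `|x - y| ≤ (x + y)/2` and `x ≤ 3 y`. (Alternatively integrate ZBC, with any constant in place of `3`.) -/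
def HAK_stmt : Prop := ∀ (ρ : ℂ → ℂ) (c c' : ℂ) (r : ℝ), 0 < r → DifferentiableOn ℂ ρ (ball c r) →
  (∀ w ∈ ball c r, 1 < ‖ρ w‖) → ‖c' - c‖ ≤ r / 2 → Real.log ‖ρ c'‖ ≤ 3 * Real.log ‖ρ c‖

/-- XU: uniform form.
PROOF. `ε'` from XF, `ε ≤ 1/2` with `(1 + ε)^3 ≤ 1 + ε'`. Let `r > 0`, `r ≤ 1` (smaller `r` is stronger). `A = {c | ‖c‖ ≤ 3 ∧ Disjoint (ball c r) (hyperbolic n)}` is compact (closed: if `ball c r` contains a point of `hyperbolic n` then so does `ball c' r` for `c'` near `c`). For `c₀ ∈ A`, `c₀ ∉ closure (hyperbolic n)`; by XF the set of the `z` is finite; `K c₀` = 1 + maximum of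
the periods `Function.minimalPeriod (fc n c₀) z` of its elements. Finitely many balls `ball c₀ (r/2)` cover `A`; `K = max K c₀` (and `≥ 1`). Let `c` with `Disjoint (ball c r) (hyperbolic n)`, `k ≥ K`, `z` of exact period `k`, and suppose `‖mlt n k c z‖ < 1 + ε`. `‖c‖ ≥ 3` is excluded by ZBIG. So `c ∈ A`, `‖c₀ - c‖ < r/2` for one of the `c₀`. ZN, ZC: a holomorphic
`ζ` on `ball c r`, `ζ c = z`, `minimalPeriod (fc n c') (ζ c') = k`; `ρ c' = mlt n k c' (ζ c')` is holomorphic (see helper89/V3/FW.lean) of modulus `> 1` (ZN). HAK: `log ‖ρ c₀‖ ≤ 3 log ‖ρ c‖ < 3 log (1 + ε) ≤ log (1 + ε')`: so `ζ c₀` is in the finite set of `c₀` and `k < K c₀ ≤ K`: contradiction. -/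
def XU_stmt : Prop := ∀ n : ℕ, 2 ≤ n → ∃ ε > (0 : ℝ), ∀ r > (0 : ℝ), ∃ K : ℕ, ∀ c : ℂ,
  Disjoint (ball c r) (hyperbolic n) → ∀ (k : ℕ) (z : ℂ), K ≤ k → 0 < k →
  Function.minimalPeriod (fc n c) z = k → 1 + ε ≤ ‖MPS.mlt n k c z‖

end XPP
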