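import Pool.Agent.helper54.V3.All
import Pool.Agent.helper74.XP.SpecP
import Pool.Agent.helper74.XP.SpecQ
import Pool.Agent.helper74.XP.SpecR
import Pool.Agent.helper74.XP.ENQ
import Pool.Agent.helper98.XP.ENC
import Pool.Agent.helper59.XP.EXG
import Pool.Agent.helper30.XP.EXU
import Pool.Agent.helper20.XP.DLB
import Pool.Agent.helper99.XP.NET
import Pool.Agent.helper31.XP.SMA
import Pool.Agent.helper63.XP.INV
import Pool.Agent.helper65.XP.INQ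
import Pool.Agent.helper23.XP.SEQ
import Pool.Agent.helper52.XP.SEL
import Pool.Agent.helper77.XP.LBU
import Pool.Agent.helper74.XP.FIN
import Pool.Agent.helper38.XP.XFG
import Pool.Agent.helper12.XP.XFU
import Pool.Agent.helper70.XP.XF
import Pool.Agent.helper91.XP.XLE
import Pool.Agent.helper97.XP.XLT
import Pool.Agent.helper72.XP.XLG
import Pool.Agent.helper55.XP.XLF
import Pool.Agent.helper23.XP.HAK
import Pool.Agent.helper98.XP.XU
import Pool.Agent.helper73.XP.LIN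

/-!
# Project xp: parts P, Q, R assembled from the abstract theorem `XP.XM_stmt` (helper74)
-/

set_option autoImplicit false

namespace XPP

theorem ENQ_pq : ENQ_stmt := ENQ MPS.MI_ok PPS.MCV_p
theorem ENC_pq : ENC_stmt := ENC ENQ_pq
theorem EXG_pq : EXG_stmt := EXG PPS.ERQ_p
theorem EXU_pq : EXU_stmt := EXU V3A.UER_v
theorem DLB_pq : DLB_stmt := DLB
theorem NET_pq : NET_stmt := NET PPS.RAD_p
theorem SMA_pq : SMA_stmt := SMA NET_pq DLB_pq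
theorem SEQ_pq : SEQ_stmt := SEQ PPS.ZCY_p PPS.TG_p
theorem SEL_pq : SEL_stmt := SEL
theorem LBU_pq : LBU_stmt := LBU V3A.THV_v V3A.LGN_v MQ.THB_t
theorem XLE_pq : XLE_stmt := XLE
theorem XLT_pq : XLT_stmt := XLT
theorem HAK_pq : HAK_stmt := HAK

theorem LIN_pq : LIN_stmt := LIN
theorem INV_pq : INV_stmt := INV LIN_pq SMA_pq
theorem INQ_pq : INQ_stmt := INQ PPS.ZCY_p SMA_pq INV_pq

theorem FIN_c (hXM : XP.XM_stmt) : FIN_stmt :=
  FIN hXM SEQ_pq SEL_pq INQ_pq ENC_pq PPS.RAD_p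
theorem XFG_c (hXM : XP.XM_stmt) : XFG_stmt := XFG (FIN_c hXM) EXG_pq V3A.THQ_v
theorem XFU_c (hXM : XP.XM_stmt) : XFU_stmt := XFU (FIN_c hXM) EXU_pq LBU_pq
theorem XF_c (hXM : XP.XM_stmt) : XF_stmt :=
  XF (XFU_c hXM) MPS.ZBIG_ok MPS.ZN_ok MPS.ZC_ok MPS.ZCYC_ok MPS.ZL_ok MPS.ZBC_ok
theorem XLG_c (hXM : XP.XM_stmt) : XLG_stmt :=
  XLG (FIN_c hXM) PPS.PRB_p PPS.ERV_p XLE_pq XLT_pq
theorem XLF_c (hXM : XP.XM_stmt) : XLF_stmt :=
  XLF (XLG_c hXM) V3A.FLE_v V3A.FLQ_v PPS.ZCY_p PPS.PRB_p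
theorem XU_c (hXM : XP.XM_stmt) : XU_stmt :=
  XU (XF_c hXM) HAK_pq MPS.ZBIG_ok MPS.ZN_ok MPS.ZC_ok

end XPP
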